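import Pool.Agent.VLF.Stmts
import Pool.Agent.Helper25_ZOL.Fant

set_option autoImplicit false

namespace Pool.Agent.VLF.H51

open Pool.Agent.ZOL Finset

theorem comb (G : AddSubgroup ZK) (x y z : ZK) (P N : ℤ) (α β : ℤ) (h : α * P + β * N = 1)
    (h1 : x + N • y ∈ G) (h2 : x + P • z ∈ G) : x + (P * N) • (α • y + β • z) ∈ G := by
  have e : x + (P * N) • (α • y + β • z) = (α * P) • (x + N • y) + (β * N) • (x + P • z) := by
    match_scalars
    · linear_combination (-1 : ℤ) * h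
    · ring
    · ring
  rw [e]
  exact G.add_mem (G.zsmul_mem h1 _) (G.zsmul_mem h2 _)

theorem jtf (hSAT : SatStmt) : JtfStmt := by
  intro n
  induction n using Nat.recOnMul with
  | zero => intro x h; exact absurd h (lt_irrefl 0)
  | one =>
    intro x _ hx d N hN
    obtain ⟨y, hy⟩ := hx d N hN
    exact ⟨y, by simpa using hy⟩
  | mul a b iha ihb =>
    intro x hab hx
    have ha : 0 < a := Nat.pos_of_mul_pos_right hab
    have hb : 0 < b := Nat.pos_of_mul_pos_left hab
    refine ihb x hb (iha (b • x) ha ?_)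
    intro d N hN
    obtain ⟨y, hy⟩ := hx d N hN
    exact ⟨y, by rwa [mul_smul] at hy⟩
  | prime p hp =>
    intro x _ hx d N hN
    obtain ⟨k, N', hN', hk⟩ := Nat.exists_eq_pow_mul_and_not_dvd
      (n := p * N) (by have := hp.pos; positivity) p hp.ne_one
    have hk1 : 1 ≤ k := by
      rcases Nat.eq_zero_or_pos k with h0 | h0
      · rw [h0, pow_zero, one_mul] at hk
        exact absurd (hk ▸ Dvd.intro N rfl) hN'
      · exact h0
    have hN'0 : 0 < N' := by
      rcases Nat.eq_zero_or_pos N' with h0 | h0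
      · exact absurd (h0 ▸ dvd_zero p) hN'
      · exact h0
    -- S1
    obtain ⟨y1, hy1⟩ := hx (d * Dg p k 1 + 1) (p ^ (k + 1)) (pow_pos hp.pos _)
    obtain ⟨z, hz⟩ := hSAT p k 1 d hp hk1 x y1 (by simpa using hy1)
    -- S2
    obtain ⟨y2, hy2⟩ := hx (d + 1) N' hN'0
    have hcop : Nat.Coprime p N' := (Nat.Prime.coprime_iff_not_dvd hp).mpr hN'
    obtain ⟨u, w, huw⟩ : ∃ u w : ℤ, u * p + w * N' = 1 := by
      have := Nat.isCoprime_iff_coprime.mpr hcop
      obtain ⟨u, w, h⟩ := this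
      exact ⟨u, w, h⟩
    have hS3 : x + (N' : ℤ) • (u • y2 - w • x) ∈ F (d + 1) := by
      have e : x + (N' : ℤ) • (u • y2 - w • x) = u • ((p : ℤ) • x + (N' : ℤ) • y2) := by
        match_scalars
        · linear_combination (-1 : ℤ) * huw
        · ring
      rw [e]
      refine AddSubgroup.zsmul_mem _ ?_ _
      rw [natCast_zsmul, natCast_zsmul]
      exact hy2
    have hcopk : Nat.Coprime (p ^ k) N' := Nat.Coprime.pow_left k hcop
    obtain ⟨α, β, hab⟩ : ∃ α β : ℤ, α * ((p ^ k : ℕ) : ℤ) + β * N' = 1 := by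
      have := Nat.isCoprime_iff_coprime.mpr hcopk
      obtain ⟨u, w, h⟩ := this
      exact ⟨u, w, h⟩
    have hz' : x + ((p ^ k : ℕ) : ℤ) • z ∈ F (d + 1) := by
      rw [natCast_zsmul]; exact hz
    have hfin := comb (F (d + 1)) x (u • y2 - w • x) z ((p ^ k : ℕ) : ℤ) (N' : ℤ) α β hab hS3 hz'
    refine ⟨p • (α • (u • y2 - w • x) + β • z), ?_⟩
    have h2 : F (d + 1) ≤ F d := Pool.Agent.ZOL.H25.fant_le (Nat.le_succ d)
    apply h2
    have e2 : N • (p • (α • (u • y2 - w • x) + β • z)) =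
        (((p ^ k : ℕ) : ℤ) * (N' : ℤ)) • (α • (u • y2 - w • x) + β • z) := by
      rw [← mul_smul, mul_comm N p, hk, ← Nat.cast_mul, natCast_zsmul]
    rw [e2]
    exact hfin

end Pool.Agent.VLF.H51
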